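import Pool.Agent.W142.TF.Stm4

/-!
# Project HF, part IND: points without large cliques
-/

set_option autoImplicit false

namespace Pool.Agent.W588.HF

open Finset Filter
open Pool.Agent.W142.TF

section

variable {n p : ℕ} [NeZero p]

/-- common neighbours -/
def NN (R : Fin n → Fin n → Finset (ZMod p)) (x : Fin n → ZMod p) (W : Finset (Fin n)) (i : Fin n) :
    Finset (ZMod p) := univ.filter (fun y => ∀ j ∈ W, x j - y ∈ R i j)

/-- the part of `NN` lost by a new point `y` at the place `j` -/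
def bad (R : Fin n → Fin n → Finset (ZMod p)) (x : Fin n → ZMod p) (W : Finset (Fin n)) (i j : Fin n)
    (y : ZMod p) : Finset (ZMod p) := (NN R x W i).filter (fun v => y - v ∉ R i j)

open scoped Classical in
/-- the points `y` which lose little -/
noncomputable def AA (δ : ℝ) (R : Fin n → Fin n → Finset (ZMod p)) (x : Fin n → ZMod p)
    (W : Finset (Fin n)) (i j : Fin n) : Finset (ZMod p) :=
  univ.filter (fun y => ((bad R x W i j y).card : ℝ) ≤ δ ^ 2 * p)

theorem NN_congr (R : Fin n → Fin n → Finset (ZMod p)) {x x' : Fin n → ZMod p} {W : Finset (Fin n)}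
    (h : ∀ i ∈ W, x i = x' i) (i : Fin n) : NN R x W i = NN R x' W i := by
  unfold NN
  ext y
  simp only [mem_filter, mem_univ, true_and]
  constructor
  · intro h1 j hj
    rw [← h j hj]; exact h1 j hj
  · intro h1 j hj
    rw [h j hj]; exact h1 j hj

theorem AA_congr (δ : ℝ) (R : Fin n → Fin n → Finset (ZMod p)) {x x' : Fin n → ZMod p}
    {W : Finset (Fin n)} (h : ∀ i ∈ W, x i = x' i) (i j : Fin n) : AA δ R x W i j = AA δ R x' W i j := by
  unfold AA bad
  rw [NN_congr R h]

theorem NN_insert (R : Fin n → Fin n → Finset (ZMod p)) (x : Fin n → ZMod p) (W : Finset (Fin n))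
    (k i : Fin n) : (NN R x W i).card = (NN R x (insert k W) i).card + (bad R x W i k (x k)).card := by
  have h1 : NN R x (insert k W) i = (NN R x W i).filter (fun v => ¬ (x k - v ∉ R i k)) := by
    unfold NN
    ext y
    simp only [mem_filter, mem_univ, true_and, mem_insert, forall_eq_or_imp, not_not]
    tauto
  rw [h1]
  unfold bad
  rw [add_comm]
  exact (card_filter_add_card_filter_not (s := NN R x W i) (fun v => x k - v ∉ R i k)).symm

theorem card_le_p (s : Finset (ZMod p)) : (s.card : ℝ) ≤ p := by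
  have h1 := card_le_univ s
  rw [ZMod.card] at h1
  exact_mod_cast h1

/-- the greedy choice -/
theorem greedy (R : Fin n → Fin n → Finset (ZMod p)) (x : Fin n → ZMod p) (I : Finset (Fin n))
    (c : ℝ) : ∀ d : ℕ, d ≤ n → ∃ W ⊆ I, (∀ j ∈ W, n ≤ j.val + d) ∧
      (∀ j ∈ I, n ≤ j.val + d → j ∉ W →
        ∑ i ∈ univ.filter (fun i => i < j),
          ((bad R x (W.filter (fun k => j < k)) i j (x j)).card : ℝ) < c) ∧
      (W.card : ℝ) * c + ∑ i, ((NN R x W i).card : ℝ) ≤ n * p := by
  intro d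
  induction d with
  | zero =>
    intro _
    refine ⟨∅, empty_subset _, by simp, fun j _ h1 _ => ?_, ?_⟩
    · have := j.2; omega
    · rw [card_empty, Nat.cast_zero, zero_mul, zero_add]
      have := sum_le_card_nsmul univ (fun i => ((NN R x ∅ i).card : ℝ)) p (fun i _ => card_le_p _)
      rwa [card_univ, Fintype.card_fin, nsmul_eq_mul] at this
  | succ d ih =>
    intro hd
    obtain ⟨W, hWI, hW1, hW2, hW3⟩ := ih (by omega)
    obtain ⟨k, hk⟩ : ∃ k : Fin n, k.val + d + 1 = n := ⟨⟨n - d - 1, by omega⟩, by simp; omega⟩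
    have hfk : W.filter (fun l => k < l) = W := by
      refine filter_true_of_mem fun l hl => ?_
      have := hW1 l hl
      rw [Fin.lt_def]; omega
    by_cases hcase : k ∈ I ∧ c ≤ ∑ i ∈ univ.filter (fun i => i < k), ((bad R x W i k (x k)).card : ℝ)
    · obtain ⟨hkI, hkc⟩ := hcase
      have hkW : k ∉ W := fun h => by have := hW1 k h; omega
      refine ⟨insert k W, insert_subset hkI hWI, ?_, ?_, ?_⟩
      · intro j hj
        rcases mem_insert.1 hj with rfl | hj
        · omega
        · have := hW1 j hj; omega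
      · intro j hjI hj hjW
        rw [mem_insert, not_or] at hjW
        have hjk : j.val ≠ k.val := fun h => hjW.1 (Fin.ext h)
        have hf : (insert k W).filter (fun l => j < l) = W.filter (fun l => j < l) := by
          rw [filter_insert, if_neg]
          rw [Fin.lt_def]; omega
        rw [hf]
        exact hW2 j hjI (by omega) hjW.2
      · rw [card_insert_of_notMem hkW]
        push_cast
        have h1 : ∑ i, ((NN R x W i).card : ℝ) = ∑ i, ((NN R x (insert k W) i).card : ℝ) +
            ∑ i, ((bad R x W i k (x k)).card : ℝ) := by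
          rw [← sum_add_distrib]
          refine sum_congr rfl fun i _ => ?_
          rw [NN_insert R x W k i]
          push_cast
          ring
        have h2 : ∑ i ∈ univ.filter (fun i => i < k), ((bad R x W i k (x k)).card : ℝ) ≤
            ∑ i, ((bad R x W i k (x k)).card : ℝ) :=
          sum_le_sum_of_subset_of_nonneg (filter_subset _ _) fun i _ _ => Nat.cast_nonneg _
        linarith
    · refine ⟨W, hWI, fun j hj => by have := hW1 j hj; omega, ?_, hW3⟩
      intro j hjI hj hjW
      by_cases hjk : n ≤ j.val + d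
      · exact hW2 j hjI hjk hjW
      · have : j = k := Fin.ext (by omega)
        subst this
        rw [hfk]
        exact not_le.1 fun h => hcase ⟨hjI, h⟩

end

/-- all small subsets are coded by functions -/
theorem exists_g {n w : ℕ} (W : Finset (Fin n)) (hW : W.card ≤ w) :
    ∃ g : Fin w → Option (Fin n), univ.filter (fun i => ∃ t, g t = some i) = W := by
  classical
  refine ⟨fun t => if h : t.val < W.card then some (W.equivFin.symm ⟨t.val, h⟩).1 else none, ?_⟩
  ext i
  simp only [mem_filter, mem_univ, true_and]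
  constructor
  · rintro ⟨t, ht⟩
    split_ifs at ht with h
    · injection ht with ht'
      rw [← ht']
      exact (W.equivFin.symm ⟨t.val, h⟩).2
  · intro hi
    refine ⟨⟨(W.equivFin ⟨i, hi⟩).val, by have := (W.equivFin ⟨i, hi⟩).2; omega⟩, ?_⟩
    rw [dif_pos (W.equivFin ⟨i, hi⟩).2]
    simp

/-- number of pairs -/
theorem sum_pairs {n : ℕ} (J : Finset (Fin n)) :
    2 * ∑ j ∈ J, ((J.filter (fun i => i < j)).card : ℝ) = (J.card : ℝ) * (J.card - 1) := by
  have h1 : ∑ j ∈ J, ((J.filter (fun i => i < j)).card : ℝ) =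
      ∑ j ∈ J, ((J.filter (fun i => j < i)).card : ℝ) := by
    simp only [card_filter, Nat.cast_sum]
    rw [sum_comm]
  have h2 : ∀ j ∈ J, ((J.filter (fun i => i < j)).card : ℝ) + ((J.filter (fun i => j < i)).card : ℝ) =
      (J.card : ℝ) - 1 := by
    intro j hj
    have h3 : J.filter (fun i => i < j) ∪ J.filter (fun i => j < i) = J.erase j := by
      ext i
      simp only [mem_union, mem_filter, mem_erase]
      constructor
      · rintro (⟨h4, h5⟩ | ⟨h4, h5⟩)
        · exact ⟨h5.ne, h4⟩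
        · exact ⟨h5.ne', h4⟩
      · rintro ⟨h4, h5⟩
        rcases lt_or_gt_of_ne h4 with h6 | h6
        · exact Or.inl ⟨h5, h6⟩
        · exact Or.inr ⟨h5, h6⟩
    have h4 : Disjoint (J.filter (fun i => i < j)) (J.filter (fun i => j < i)) := by
      rw [disjoint_filter]
      intro i _ h5 h6
      exact absurd h5 (not_lt.2 h6.le)
    have h5 := card_union_of_disjoint h4
    rw [h3, card_erase_of_mem hj] at h5
    have h6 : 1 ≤ J.card := card_pos.2 ⟨j, hj⟩
    have h7 : ((J.card - 1 : ℕ) : ℝ) = (J.card : ℝ) - 1 := by push_cast [h6]; ring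
    rw [← h7, h5]
    push_cast
    ring
  calc 2 * ∑ j ∈ J, ((J.filter (fun i => i < j)).card : ℝ) =
        ∑ j ∈ J, (((J.filter (fun i => i < j)).card : ℝ) + ((J.filter (fun i => j < i)).card : ℝ)) := by
        rw [sum_add_distrib, ← h1]; ring
    _ = ∑ j ∈ J, ((J.card : ℝ) - 1) := sum_congr rfl h2
    _ = _ := by rw [sum_const, nsmul_eq_mul]

theorem small_exp (w : ℕ) {δ : ℝ} (hδ : 0 < δ) : ∃ n₁ : ℕ, ∀ n : ℕ, n₁ ≤ n →
    ((n : ℝ) + 1) ^ (w + 1) * Real.exp (-(δ ^ 2 * n / 4)) < 1 := by
  have hb : 0 < δ ^ 2 / 4 := by positivity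
  have h1 := tendsto_rpow_mul_exp_neg_mul_atTop_nhds_zero ((w + 1 : ℕ) : ℝ) (δ ^ 2 / 4) hb
  have h2 : Tendsto (fun n : ℕ => (n : ℝ) + 1) atTop atTop :=
    tendsto_atTop_add_const_right _ _ tendsto_natCast_atTop_atTop
  have h3 := (h1.comp h2).eventually (gt_mem_nhds (show (0 : ℝ) < Real.exp (-(δ ^ 2 / 4)) by positivity))
  obtain ⟨n₁, hn₁⟩ := eventually_atTop.1 h3
  refine ⟨n₁, fun n hn => ?_⟩
  have h4 := hn₁ n hn
  simp only [Function.comp] at h4
  rw [Real.rpow_natCast, show -(δ ^ 2 / 4) * ((n : ℝ) + 1) = -(δ ^ 2 * n / 4) + -(δ ^ 2 / 4) by ring,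
    Real.exp_add, ← mul_assoc] at h4
  have h5 : 0 < Real.exp (-(δ ^ 2 / 4)) := Real.exp_pos _
  by_contra hcon
  have h6 := mul_le_mul_of_nonneg_right (not_lt.1 hcon) h5.le
  rw [one_mul] at h6
  linarith

/-- the product of the densities is small -/
theorem prod_small (h1 : S_rob) {n p : ℕ} [NeZero p] (hp : p.Prime) {ε δ : ℝ} (hε : 0 < ε)
    (hε1 : ε ≤ 1 / 2) (hδ : δ = ε / 300) (hpδ : 1 ≤ δ * p) (R : Fin n → Fin n → Finset (ZMod p))
    (x : Fin n → ZMod p) (W : Finset (Fin n)) (i j : Fin n)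
    (hR : ((R i j).card : ℝ) ≤ (1 / 2 - ε) * p) :
    ((NN R x W i).card : ℝ) / p * (((AA δ R x W i j).card : ℝ) / p) ≤ 1 / 16 - ε / 16 := by
  have hp0 : (0 : ℝ) < p := by exact_mod_cast hp.pos
  have hδ0 : 0 < δ := by rw [hδ]; positivity
  obtain ⟨ν, hν⟩ : ∃ ν, ν = ((NN R x W i).card : ℝ) / p := ⟨_, rfl⟩
  obtain ⟨α, hα⟩ : ∃ α, α = ((AA δ R x W i j).card : ℝ) / p := ⟨_, rfl⟩
  have hν0 : 0 ≤ ν := by rw [hν]; positivity
  have hα0 : 0 ≤ α := by rw [hα]; positivity
  have hα1 : α ≤ 1 := by rw [hα, div_le_one hp0]; exact card_le_p _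
  rw [← hν, ← hα]
  by_cases hA : (AA δ R x W i j).Nonempty
  · by_cases hN : δ * p + 1 ≤ ((NN R x W i).card : ℝ)
    · have h2 := h1 p hp (AA δ R x W i j) (NN R x W i) (R i j) δ hδ0 (by rw [hδ]; linarith) hA hN
        (fun a ha => by
          classical
          unfold AA at ha
          rw [mem_filter] at ha
          have h3 := ha.2
          unfold bad at h3
          exact h3)
      have h3 : ((AA δ R x W i j).card : ℝ) + (NN R x W i).card ≤ (1 / 2 - ε / 2) * p := by
        have h4 : ((min p ((AA δ R x W i j).card + (NN R x W i).card) : ℕ) : ℝ) ≤ (1 / 2 - ε / 2) * p := by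
          refine h2.trans ?_
          rw [hδ] at hpδ ⊢
          nlinarith
        rcases le_total p ((AA δ R x W i j).card + (NN R x W i).card) with h5 | h5
        · rw [min_eq_left h5] at h4
          nlinarith
        · rw [min_eq_right h5] at h4
          push_cast at h4
          exact h4
      have h4 : α + ν ≤ 1 / 2 - ε / 2 := by
        rw [hα, hν, ← add_div, div_le_iff₀ hp0]
        exact h3
      nlinarith [sq_nonneg (α - ν), mul_self_nonneg (α + ν)]
    · have h2 : ν ≤ 2 * δ := by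
        rw [hν, div_le_iff₀ hp0]
        have := not_le.1 hN
        linarith
      have h3 : ν * α ≤ 2 * δ * 1 := mul_le_mul h2 hα1 hα0 (by positivity)
      rw [hδ] at h3
      linarith
  · rw [not_nonempty_iff_eq_empty] at hA
    have : α = 0 := by rw [hα, hA]; simp
    rw [this, mul_zero]
    linarith

section

variable {n p : ℕ} [NeZero p]

open scoped Classical in
/-- tests of the first type -/
noncomputable def f1 (δ : ℝ) (R : Fin n → Fin n → Finset (ZMod p)) (x : Fin n → ZMod p)
    (V : Finset (Fin n)) (j i : Fin n) (y : ZMod p) : ℝ :=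
  if i < j ∧ x j ∈ AA δ R x V i j ∧ y ∈ NN R x V i then 1 else 0

open scoped Classical in
/-- tests of the second type -/
noncomputable def f2 (δ : ℝ) (R : Fin n → Fin n → Finset (ZMod p)) (x : Fin n → ZMod p)
    (W : Finset (Fin n)) (j : Fin n) (y : ZMod p) : ℝ :=
  (1 / (n : ℝ)) * ∑ i ∈ univ.filter (fun i => i < j),
    ((NN R x (W.filter (fun k => j < k)) i).card : ℝ) / p *
      (if y ∈ AA δ R x (W.filter (fun k => j < k)) i j then 1 else 0)

/-- the set coded by a function -/
noncomputable def SS {w : ℕ} (g : Fin w → Option (Fin n)) : Finset (Fin n) :=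
  univ.filter (fun i => ∃ t, g t = some i)

/-- all tests -/
noncomputable def FF {w : ℕ} (δ : ℝ) (R : Fin n → Fin n → Finset (ZMod p))
    (τ : (Fin w → Option (Fin n)) × Option (Fin n)) (x : Fin n → ZMod p) (i : Fin n) (y : ZMod p) : ℝ :=
  match τ.2 with
  | some j => f1 δ R x ((SS τ.1).filter (fun k => j < k)) j i y
  | none => f2 δ R x (SS τ.1) i y

/-- the test sets -/
noncomputable def WW {w : ℕ} (τ : (Fin w → Option (Fin n)) × Option (Fin n)) : Finset (Fin n) :=
  match τ.2 with
  | some j => insert j ((SS τ.1).filter (fun k => j < k))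
  | none => SS τ.1

theorem nu_le (R : Fin n → Fin n → Finset (ZMod p)) (x : Fin n → ZMod p)
    (V : Finset (Fin n)) (i : Fin n) : ((NN R x V i).card : ℝ) / p ≤ 1 := by
  have hp0 : (0 : ℝ) < p := by exact_mod_cast Nat.pos_of_ne_zero (NeZero.ne p)
  rw [div_le_one hp0]
  exact card_le_p _

theorem FF_01 {w : ℕ} (hn : 0 < n) (δ : ℝ) (R : Fin n → Fin n → Finset (ZMod p))
    (τ : (Fin w → Option (Fin n)) × Option (Fin n)) (x : Fin n → ZMod p) (i : Fin n) (y : ZMod p) :
    0 ≤ FF δ R τ x i y ∧ FF δ R τ x i y ≤ 1 := by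
  have hn0 : (0 : ℝ) < n := by exact_mod_cast hn
  unfold FF
  rcases τ with ⟨g, _ | j⟩
  · simp only
    unfold f2
    have hterm : ∀ k ∈ univ.filter (fun k => k < i),
        0 ≤ ((NN R x ((SS g).filter (fun l => i < l)) k).card : ℝ) / p *
          (open scoped Classical in
            if y ∈ AA δ R x ((SS g).filter (fun l => i < l)) k i then (1 : ℝ) else 0) ∧
        ((NN R x ((SS g).filter (fun l => i < l)) k).card : ℝ) / p *
          (open scoped Classical in
            if y ∈ AA δ R x ((SS g).filter (fun l => i < l)) k i then (1 : ℝ) else 0) ≤ 1 := by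
      intro k _
      have h1 := nu_le R x ((SS g).filter (fun l => i < l)) k
      have h2 : 0 ≤ ((NN R x ((SS g).filter (fun l => i < l)) k).card : ℝ) / p := by positivity
      split_ifs
      · rw [mul_one]; exact ⟨h2, h1⟩
      · rw [mul_zero]; exact ⟨le_rfl, zero_le_one⟩
    constructor
    · exact mul_nonneg (by positivity) (sum_nonneg fun k hk => (hterm k hk).1)
    · have h3 := sum_le_card_nsmul _ _ 1 (fun k hk => (hterm k hk).2)
      rw [nsmul_eq_mul, mul_one] at h3
      have h4 : ((univ.filter (fun k => k < i)).card : ℝ) ≤ n := by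
        have := card_le_univ (univ.filter (fun k => k < i))
        rw [Fintype.card_fin] at this
        exact_mod_cast this
      have h5 := mul_le_mul_of_nonneg_left (h3.trans h4) (show 0 ≤ 1 / (n : ℝ) by positivity)
      rw [one_div_mul_cancel hn0.ne'] at h5
      exact h5
  · simp only
    unfold f1
    split_ifs
    · exact ⟨zero_le_one, le_rfl⟩
    · exact ⟨le_rfl, zero_le_one⟩

theorem FF_dep {w : ℕ} (δ : ℝ) (R : Fin n → Fin n → Finset (ZMod p))
    (τ : (Fin w → Option (Fin n)) × Option (Fin n)) (x x' : Fin n → ZMod p)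
    (h : ∀ i ∈ WW τ, x i = x' i) : FF δ R τ x = FF δ R τ x' := by
  funext i y
  unfold FF
  rcases τ with ⟨g, _ | j⟩
  · simp only
    unfold WW at h
    simp only at h
    unfold f2
    congr 1
    refine sum_congr rfl fun k _ => ?_
    have h1 : ∀ l ∈ (SS g).filter (fun l => i < l), x l = x' l := fun l hl => h l (mem_filter.1 hl).1
    rw [NN_congr R h1, AA_congr δ R h1]
  · simp only
    unfold WW at h
    simp only at h
    unfold f1
    have h1 : ∀ l ∈ (SS g).filter (fun l => j < l), x l = x' l := fun l hl => h l (mem_insert_of_mem hl)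
    rw [NN_congr R h1, AA_congr δ R h1, h j (mem_insert_self _ _)]

/-- the means of the tests of the first type -/
theorem f1_mean (δ : ℝ) (R : Fin n → Fin n → Finset (ZMod p)) (x : Fin n → ZMod p)
    (V : Finset (Fin n)) (j i : Fin n) : (∑ y, f1 δ R x V j i y) / p =
      if i < j then ((NN R x V i).card : ℝ) / p *
        (open scoped Classical in if x j ∈ AA δ R x V i j then (1 : ℝ) else 0) else 0 := by
  classical
  unfold f1
  by_cases h1 : i < j
  · rw [if_pos h1]
    by_cases h2 : x j ∈ AA δ R x V i j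
    · rw [if_pos h2, mul_one]
      congr 1
      have : ∀ y, (if i < j ∧ x j ∈ AA δ R x V i j ∧ y ∈ NN R x V i then (1 : ℝ) else 0) =
          if y ∈ NN R x V i then 1 else 0 := fun y => by simp [h1, h2]
      simp only [this]
      rw [sum_ite_mem, univ_inter, sum_const, nsmul_eq_mul, mul_one]
    · rw [if_neg h2, mul_zero]
      have : ∀ y, (if i < j ∧ x j ∈ AA δ R x V i j ∧ y ∈ NN R x V i then (1 : ℝ) else 0) = 0 :=
        fun y => if_neg fun h => h2 h.2.1
      simp only [this]
      simp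
  · rw [if_neg h1]
    have : ∀ y, (if i < j ∧ x j ∈ AA δ R x V i j ∧ y ∈ NN R x V i then (1 : ℝ) else 0) = 0 :=
      fun y => if_neg fun h => h1 h.1
    simp only [this]
    simp

/-- the means of the tests of the second type -/
theorem f2_mean (δ : ℝ) (R : Fin n → Fin n → Finset (ZMod p)) (x : Fin n → ZMod p)
    (W : Finset (Fin n)) (j : Fin n) : (∑ y, f2 δ R x W j y) / p =
      (1 / (n : ℝ)) * ∑ i ∈ univ.filter (fun i => i < j),
        ((NN R x (W.filter (fun k => j < k)) i).card : ℝ) / p *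
          (((AA δ R x (W.filter (fun k => j < k)) i j).card : ℝ) / p) := by
  classical
  unfold f2
  rw [← mul_sum, sum_comm, mul_div_assoc, sum_div]
  congr 1
  refine sum_congr rfl fun i _ => ?_
  rw [← mul_sum, sum_ite_mem, univ_inter, sum_const, nsmul_eq_mul, mul_one, mul_div_assoc]

end

theorem ind_thm (h1 : S_rob) (h2 : S_che) : S_ind := by
  classical
  intro ε₀ hε₀
  obtain ⟨ε, hε, hε1, hεε⟩ : ∃ ε : ℝ, 0 < ε ∧ ε ≤ 1 / 2 ∧ ε ≤ ε₀ :=
    ⟨min ε₀ (1 / 2), lt_min hε₀ (by norm_num), min_le_right _ _, min_le_left _ _⟩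
  obtain ⟨δ, hδ⟩ : ∃ δ : ℝ, δ = ε / 300 := ⟨_, rfl⟩
  have hδ0 : 0 < δ := by rw [hδ]; positivity
  have hδ1 : δ ≤ 1 / 600 := by rw [hδ]; linarith
  obtain ⟨w, hw⟩ : ∃ w : ℕ, 1 / δ ^ 4 ≤ w := exists_nat_ge _
  obtain ⟨n₁, hn₁⟩ := small_exp w hδ0
  obtain ⟨n₂, hn₂⟩ : ∃ n₂ : ℕ, (2 * (w : ℝ) + 1) * 50 / (8 * ε) < n₂ := exists_nat_gt _
  obtain ⟨P₀, hP₀⟩ := exists_nat_ge (1 / δ)
  refine ⟨max n₁ (max n₂ (4 * (w + 1))), P₀, fun n p hn hp hpP R hR₀ => ?_⟩
  have : NeZero p := ⟨hp.ne_zero⟩
  have hp0 : (0 : ℝ) < p := by exact_mod_cast hp.pos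
  have hpδ : 1 ≤ δ * p := by
    rw [div_le_iff₀ hδ0] at hP₀
    have : (P₀ : ℝ) ≤ p := by exact_mod_cast hpP
    nlinarith
  have hnn₁ : n₁ ≤ n := (le_max_left _ _).trans hn
  have hnn₂ : n₂ ≤ n := (le_max_left _ _).trans ((le_max_right _ _).trans hn)
  have hnn₃ : 4 * (w + 1) ≤ n := (le_max_right _ _).trans ((le_max_right _ _).trans hn)
  have hnpos : 0 < n := by omega
  have hn0 : (0 : ℝ) < n := by exact_mod_cast hnpos
  have hR : ∀ i j, i < j → ((R i j).card : ℝ) ≤ (1 / 2 - ε) * p := fun i j hij =>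
    (hR₀ i j hij).trans (mul_le_mul_of_nonneg_right (by linarith) hp0.le)
  obtain ⟨x, hx⟩ := h2 n p δ hδ0 (by linarith) ((Fin w → Option (Fin n)) × Option (Fin n)) WW
    (FF δ R) (fun τ x i y => FF_01 hnpos δ R τ x i y) (fun τ x x' h => FF_dep δ R τ x x' h) (by
      have hc : (Fintype.card ((Fin w → Option (Fin n)) × Option (Fin n)) : ℝ) = ((n : ℝ) + 1) ^ (w + 1) := by
        rw [Fintype.card_prod, Fintype.card_fun, Fintype.card_option, Fintype.card_fin, Fintype.card_fin]
        push_cast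
        ring
      rw [hc]
      exact hn₁ n hnn₁)
  refine ⟨x, fun I hI => ?_⟩
  by_contra hcon
  push Not at hcon
  obtain ⟨W, hWI, -, hW2, hW3⟩ := greedy R x I (δ ^ 4 * n * p) n le_rfl
  have hWw : W.card ≤ w := by
    have h3 : 0 ≤ ∑ i, ((NN R x W i).card : ℝ) := sum_nonneg fun _ _ => Nat.cast_nonneg _
    have h4 : (W.card : ℝ) * (δ ^ 4 * n * p) ≤ n * p := by linarith
    have h5 : (W.card : ℝ) * δ ^ 4 ≤ 1 := by
      have h6 : ((W.card : ℝ) * δ ^ 4) * (n * p) ≤ 1 * (n * p) := by linarith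
      exact le_of_mul_le_mul_right h6 (by positivity)
    have h6 : (W.card : ℝ) ≤ 1 / δ ^ 4 := by rw [le_div_iff₀ (by positivity)]; exact h5
    exact_mod_cast h6.trans hw
  obtain ⟨g, hg⟩ := exists_g W hWw
  have hSS : SS g = W := hg
  obtain ⟨J, hJ⟩ : ∃ J, J = I \ W := ⟨_, rfl⟩
  obtain ⟨c, hc⟩ : ∃ c : ℝ, c = 1 / 16 - ε / 16 := ⟨_, rfl⟩
  have hc0 : 0 ≤ c := by rw [hc]; linarith
  -- the main count
  have hcount : ∀ j ∈ J, ((J.filter (fun i => i < j)).card : ℝ) ≤
      δ ^ 2 * n + δ * n + n * f2 δ R x W j (x j) := by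
    intro j hj
    rw [hJ, Finset.mem_sdiff] at hj
    obtain ⟨V, hV⟩ : ∃ V, V = W.filter (fun k => j < k) := ⟨_, rfl⟩
    have hsum := hW2 j hj.1 (by omega) hj.2
    rw [← hV] at hsum
    obtain ⟨B, hB⟩ : ∃ B, B = univ.filter
      (fun i => i < j ∧ δ ^ 2 * p < ((bad R x V i j (x j)).card : ℝ)) := ⟨_, rfl⟩
    obtain ⟨G, hG⟩ : ∃ G, G = univ.filter
      (fun i => i < j ∧ x j ∈ AA δ R x V i j ∧ x i ∈ NN R x V i) := ⟨_, rfl⟩
    have hsub : J.filter (fun i => i < j) ⊆ B ∪ G := by
      intro i hi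
      rw [mem_filter, hJ, Finset.mem_sdiff] at hi
      obtain ⟨⟨hiI, hiW⟩, hij⟩ := hi
      rw [mem_union, hB, hG, mem_filter, mem_filter]
      by_cases hb : δ ^ 2 * p < ((bad R x V i j (x j)).card : ℝ)
      · exact Or.inl ⟨mem_univ _, hij, hb⟩
      · refine Or.inr ⟨mem_univ _, hij, ?_, ?_⟩
        · unfold AA
          rw [mem_filter]
          exact ⟨mem_univ _, not_lt.1 hb⟩
        · unfold NN
          rw [mem_filter]
          refine ⟨mem_univ _, fun k hk => ?_⟩
          rw [hV, mem_filter] at hk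
          exact hcon i hiI k (hWI hk.1) (hij.trans hk.2)
    have hcard : ((J.filter (fun i => i < j)).card : ℝ) ≤ (B.card : ℝ) + G.card := by
      exact_mod_cast (card_le_card hsub).trans (card_union_le _ _)
    have hBc : (B.card : ℝ) ≤ δ ^ 2 * n := by
      have h3 : (B.card : ℝ) * (δ ^ 2 * p) ≤ ∑ i ∈ B, ((bad R x V i j (x j)).card : ℝ) := by
        rw [← nsmul_eq_mul]
        refine card_nsmul_le_sum _ _ _ fun i hi => ?_
        rw [hB, mem_filter] at hi
        exact hi.2.2.le
      have h4 : ∑ i ∈ B, ((bad R x V i j (x j)).card : ℝ) ≤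
          ∑ i ∈ univ.filter (fun i => i < j), ((bad R x V i j (x j)).card : ℝ) := by
        refine sum_le_sum_of_subset_of_nonneg (fun i hi => ?_) fun _ _ _ => Nat.cast_nonneg _
        rw [hB, mem_filter] at hi
        rw [mem_filter]
        exact ⟨mem_univ _, hi.2.1⟩
      have h5 : (B.card : ℝ) * (δ ^ 2 * p) ≤ (δ ^ 2 * n) * (δ ^ 2 * p) := by
        calc (B.card : ℝ) * (δ ^ 2 * p) ≤ δ ^ 4 * n * p := by linarith
          _ = _ := by ring
      exact le_of_mul_le_mul_right h5 (by positivity)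
    have hGc : (G.card : ℝ) ≤ δ * n + n * f2 δ R x W j (x j) := by
      have h3 := hx (g, some j)
      have e1 : WW (g, some j) = insert j V := by
        unfold WW; simp only; rw [hSS, hV]
      have e2 : ∀ i y, FF δ R (g, some j) x i y = f1 δ R x V j i y := by
        intro i y
        unfold FF; simp only; rw [hSS, hV]
      rw [e1] at h3
      simp only [e2, f1_mean] at h3
      have h4 : (G.card : ℝ) ≤ ∑ i ∈ univ \ insert j V, f1 δ R x V j i (x i) := by
        have h5 : (G.card : ℝ) = ∑ i ∈ G, f1 δ R x V j i (x i) := by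
          rw [sum_congr rfl (g := fun _ => (1 : ℝ)) fun i hi => by
            rw [hG, mem_filter] at hi
            unfold f1
            rw [if_pos hi.2]]
          simp
        rw [h5]
        refine sum_le_sum_of_subset_of_nonneg (fun i hi => ?_) fun i _ _ => ?_
        · rw [hG, mem_filter] at hi
          rw [Finset.mem_sdiff, mem_insert, not_or]
          refine ⟨mem_univ _, hi.2.1.ne, fun h => ?_⟩
          rw [hV, mem_filter] at h
          exact absurd h.2 (not_lt.2 hi.2.1.le)
        · unfold f1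
          split_ifs
          · exact zero_le_one
          · exact le_rfl
      have h5 : ∑ i ∈ univ \ insert j V, (if i < j then ((NN R x V i).card : ℝ) / p *
          (if x j ∈ AA δ R x V i j then (1 : ℝ) else 0) else 0) ≤ n * f2 δ R x W j (x j) := by
        unfold f2
        rw [← hV, ← mul_assoc, mul_one_div_cancel hn0.ne', one_mul, sum_filter]
        refine sum_le_sum_of_subset_of_nonneg (subset_univ _) fun i _ _ => ?_
        split_ifs
        · positivity
        · positivity
        · exact le_rfl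
      linarith
    linarith
  -- summation
  have hsumJ := sum_le_sum hcount
  have hpairs := sum_pairs J
  rw [sum_add_distrib, sum_const, nsmul_eq_mul, ← mul_sum] at hsumJ
  have hf2nn : ∀ j, 0 ≤ f2 δ R x W j (x j) := fun j => by
    have := (FF_01 hnpos δ R ((g, none) : (Fin w → Option (Fin n)) × Option (Fin n)) x j (x j)).1
    unfold FF at this
    simp only at this
    rw [hSS] at this
    exact this
  have hJsub : ∑ j ∈ J, f2 δ R x W j (x j) ≤ ∑ j ∈ univ \ W, f2 δ R x W j (x j) := by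
    refine sum_le_sum_of_subset_of_nonneg (fun j hj => ?_) fun j _ _ => hf2nn j
    rw [hJ, Finset.mem_sdiff] at hj
    rw [Finset.mem_sdiff]
    exact ⟨mem_univ _, hj.2⟩
  have htest := hx (g, none)
  have e1 : WW ((g, none) : (Fin w → Option (Fin n)) × Option (Fin n)) = W := by
    unfold WW; simp only; exact hSS
  have e2 : ∀ j y, FF δ R ((g, none) : (Fin w → Option (Fin n)) × Option (Fin n)) x j y =
      f2 δ R x W j y := by
    intro j y
    unfold FF; simp only; rw [hSS]
  rw [e1] at htest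
  simp only [e2, f2_mean] at htest
  have hmean : ∑ j ∈ univ \ W, ((1 / (n : ℝ)) * ∑ i ∈ univ.filter (fun i => i < j),
        ((NN R x (W.filter (fun k => j < k)) i).card : ℝ) / p *
          (((AA δ R x (W.filter (fun k => j < k)) i j).card : ℝ) / p)) ≤ c * n / 2 := by
    have h3 : ∀ j : Fin n, (1 / (n : ℝ)) * ∑ i ∈ univ.filter (fun i => i < j),
        ((NN R x (W.filter (fun k => j < k)) i).card : ℝ) / p *
          (((AA δ R x (W.filter (fun k => j < k)) i j).card : ℝ) / p) ≤
        (1 / (n : ℝ)) * (((univ.filter (fun i => i < j)).card : ℝ) * c) := by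
      intro j
      refine mul_le_mul_of_nonneg_left ?_ (by positivity)
      rw [← nsmul_eq_mul]
      refine sum_le_card_nsmul _ _ _ fun i hi => ?_
      rw [hc]
      exact prod_small h1 hp hε hε1 hδ hpδ R x _ i j (hR i j (mem_filter.1 hi).2)
    have h4 : ∑ j ∈ univ \ W, ((1 / (n : ℝ)) * ∑ i ∈ univ.filter (fun i => i < j),
        ((NN R x (W.filter (fun k => j < k)) i).card : ℝ) / p *
          (((AA δ R x (W.filter (fun k => j < k)) i j).card : ℝ) / p)) ≤
        ∑ j : Fin n, (1 / (n : ℝ)) * (((univ.filter (fun i => i < j)).card : ℝ) * c) := by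
      refine (sum_le_sum fun j _ => h3 j).trans ?_
      exact sum_le_sum_of_subset_of_nonneg (subset_univ _) fun j _ _ => by positivity
    have h5 := sum_pairs (univ : Finset (Fin n))
    rw [card_univ, Fintype.card_fin] at h5
    have h7 : ∑ j : Fin n, (1 / (n : ℝ)) * (((univ.filter (fun i => i < j)).card : ℝ) * c) =
        1 / (n : ℝ) * ((∑ j : Fin n, ((univ.filter (fun i : Fin n => i < j)).card : ℝ)) * c) := by
      rw [← mul_sum, ← sum_mul]
    rw [h7] at h4
    have h6 : ∑ j : Fin n, ((univ.filter (fun i : Fin n => i < j)).card : ℝ) ≤ (n : ℝ) * n / 2 := by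
      nlinarith
    refine h4.trans ?_
    calc 1 / (n : ℝ) * ((∑ j : Fin n, ((univ.filter (fun i : Fin n => i < j)).card : ℝ)) * c)
        ≤ 1 / (n : ℝ) * (((n : ℝ) * n / 2) * c) := by gcongr
      _ = c * n / 2 := by field_simp
  have hJn : (J.card : ℝ) ≤ n := by
    have := card_le_univ J
    rw [Fintype.card_fin] at this
    exact_mod_cast this
  have hJlow : (n : ℝ) / 4 - w ≤ J.card := by
    have h3 : I.card ≤ J.card + W.card := by
      rw [hJ]
      have := card_sdiff_add_card I W
      have h4 := card_le_card (subset_union_left (s₁ := I) (s₂ := W))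
      omega
    have h4 : (I.card : ℝ) ≤ J.card + W.card := by exact_mod_cast h3
    have h5 : (W.card : ℝ) ≤ w := by exact_mod_cast hWw
    have h6 : (n : ℝ) ≤ 4 * I.card := by exact_mod_cast hI
    linarith
  have hn4 : (w : ℝ) + 1 ≤ n / 4 := by
    have : ((4 * (w + 1) : ℕ) : ℝ) ≤ n := by exact_mod_cast hnn₃
    push_cast at this
    linarith
  have hδ2 : δ ^ 2 ≤ δ := by nlinarith
  -- upper bound for the number of pairs
  have hup : ∑ j ∈ J, ((J.filter (fun i => i < j)).card : ℝ) ≤ 3 * δ * n ^ 2 + c * n ^ 2 / 2 := by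
    have h3 : (J.card : ℝ) * (δ ^ 2 * n + δ * n) ≤ n * (δ ^ 2 * n + δ * n) :=
      mul_le_mul_of_nonneg_right hJn (by positivity)
    have h4 : (n : ℝ) * ∑ j ∈ J, f2 δ R x W j (x j) ≤ n * (c * n / 2 + δ * n) :=
      mul_le_mul_of_nonneg_left (by linarith) hn0.le
    have h5 : (n : ℝ) * (δ ^ 2 * n) ≤ n * (δ * n) := by
      apply mul_le_mul_of_nonneg_left _ hn0.le
      exact mul_le_mul_of_nonneg_right hδ2 hn0.le
    calc ∑ j ∈ J, ((J.filter (fun i => i < j)).card : ℝ) ≤ _ := hsumJ
      _ ≤ 3 * δ * n ^ 2 + c * n ^ 2 / 2 := by nlinarith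
  have hlow : ((n : ℝ) / 4 - w) * (n / 4 - w - 1) ≤ (J.card : ℝ) * (J.card - 1) := by
    apply mul_le_mul hJlow (by linarith) (by linarith) (Nat.cast_nonneg _)
  have hfin : (n : ℝ) * (ε / 50) ≤ (2 * w + 1) / 8 := by
    have h3 : ((n : ℝ) / 4 - w) * (n / 4 - w - 1) ≤ 2 * (3 * δ * n ^ 2 + c * n ^ 2 / 2) := by linarith
    rw [hδ, hc] at h3
    have hw0 : (0 : ℝ) ≤ w := Nat.cast_nonneg w
    have h4 : (n : ℝ) * (n * (ε / 50)) ≤ n * ((2 * w + 1) / 8) * 1 := by nlinarith
    rw [mul_one] at h4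
    exact le_of_mul_le_mul_left h4 hn0
  have hn₂' : (2 * (w : ℝ) + 1) * 50 / (8 * ε) < n := lt_of_lt_of_le hn₂ (by exact_mod_cast hnn₂)
  rw [div_lt_iff₀ (by positivity)] at hn₂'
  linarith

end Pool.Agent.W588.HF
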